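import Mathlib
import Pool.Agent.LCUniv.Split

set_option autoImplicit false

namespace Pool.Agent.Results.MP_b05523_al.IdentityComponent

/-- Let `S` be a Hausdorff, locally compact, second countable topological group into which every
countable group embeds. Then every countable group already embeds into the connected component
of the identity of `S`. -/
theorem result (S : Type) [Group S] [TopologicalSpace S] [IsTopologicalGroup S] [T2Space S]
    [LocallyCompactSpace S] [SecondCountableTopology S]
    (h : ∀ (G : Type) [Group G] [Countable G], ∃ f : G →* S, Function.Injective f) :
    ∀ (G : Type) [Group G] [Countable G],
      ∃ f : G →* Subgroup.connectedComponentOfOne S, Function.Injective f :=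
  Pool.Agent.LCUniv.univ_cc S h

end Pool.Agent.Results.MP_b05523_al.IdentityComponent
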